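import Pool.Agent.H489.CU.A5

/-!
# MP_26ad15_nt: on every algebraic curve over `Q̄`, only finitely many points can contradict the
Schanuel type conjecture for the Gamma function

Let `W` be a subset of `ℂ²ⁿ` such that any two of the `2n` coordinates satisfy on `W` a fixed
nonzero polynomial relation with integer coefficients (every algebraic set of dimension at most
one which is defined over the algebraic numbers is such a set).  Then all but finitely many
`z ∈ ℂⁿ` with `(z, Γ(z)) ∈ W` have the following property: all the `z_i`, for which `z_i` and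
`Γ(z_i)` are not both algebraic, are congruent modulo `ℤ`.

In particular (`n = 2`), a curve in `ℂ⁴` over the algebraic numbers contains only finitely many
points `(z₁, z₂, Γ(z₁), Γ(z₂))` with `z₁ - z₂ ∉ ℤ`, apart from those for which some `z_i` and
`Γ(z_i)` are both algebraic.
-/

namespace Pool.Agent.Results.MP_26ad15_nt.FiniteOnCurves

theorem result (n : ℕ) (W : Set (Fin n ⊕ Fin n → ℂ))
    (hW : ∀ a b : Fin n ⊕ Fin n, a ≠ b → ∃ P : MvPolynomial (Fin 2) ℤ, P ≠ 0 ∧
      ∀ x ∈ W, MvPolynomial.aeval ![x a, x b] P = 0) :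
    {z : Fin n → ℂ | Sum.elim z (fun i => Complex.Gamma (z i)) ∈ W ∧
      ∃ i j : Fin n, (∀ m : ℤ, z i - z j ≠ m) ∧
        ¬ (IsAlgebraic ℚ (z i) ∧ IsAlgebraic ℚ (Complex.Gamma (z i))) ∧
        ¬ (IsAlgebraic ℚ (z j) ∧ IsAlgebraic ℚ (Complex.Gamma (z j)))}.Finite :=
  Pool.Agent.H489.CU.tuple_finite W hW

end Pool.Agent.Results.MP_26ad15_nt.FiniteOnCurves
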