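import Pool.Agent.H489.GI.NumMain

/-!
# The Gamma function and its inverse: generic transcendence degree

Let `S` be a set of indices. For a tuple `z = (z_1, …, z_n)` let `w_i = Γ(z_i)` for `i ∈ S` and
`w_i = z_i` for the other `i`. If the `w_i` are algebraic functions (of one or several variables), the
`z_i` with `i ∈ S` are branches of the inverse function of `Γ` at algebraic functions, and the other
`z_i` are algebraic functions. We prove that then there is no relation which is not forced: apart from
a small set of exceptions, which is countable if the `w_i` depend on one parameter, the transcendence degree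
of the field generated by the `z_i` and the `Γ(z_i)` is the number of the `w_i` which are transcendental
plus the transcendence degree of the `w_i`. So it is larger than the bound `n` of the
conjecture. There is no condition at all between an index in `S` and an index outside of `S`, and for
two indices `i ≠ j` in `S` one needs only `z_i ≠ z_j` in the place of condition (H).

The case `S = ∅` (values of `Γ` at algebraic functions) is the result `TrdegAny` of the library. The case
`S = {1, …, n}`, `m = 0` contains: for all but countably many complex numbers `t` the number `t` together
with all the solutions `z` of `Γ(z) = t` is a family of algebraically independent numbers.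

Proof: `H = 1 / Γ` is entire; its critical points are real, and there is exactly one in every interval
`(-k, -k + 1)`. Branches of the inverse function of `H` are continued along paths which avoid the
critical values and `0`; the continuation along a loop around a critical value interchanges
two branches, and the growth of the critical values shows that for algebraic functions `w_i` there is a
long sequence of critical values which can be used one after the other without disturbing the other `w_j`; so an
algebraic relation between branches would lead to a relation between other branches, one of which escapes to infinity.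
The functions outside of `S` are treated with the theorem of the library.
-/

set_option autoImplicit false

namespace Pool.Agent.Results.MP_26ad15_nt.GammaAndItsInverse

/-- The set `E` is covered by countably many analytic images of open subsets of `ℂ ^ m`. For `m = 0` this
means that `E` is countable. -/
def Thin (m : ℕ) {n : ℕ} (E : Set (Fin n → ℂ)) : Prop :=
  ∃ (Φ : ℕ → (Fin m → ℂ) → (Fin n → ℂ)) (U : ℕ → Set (Fin m → ℂ)), (∀ k, IsOpen (U k)) ∧
    (∀ k, AnalyticOnNhd ℂ (Φ k) (U k)) ∧ E ⊆ ⋃ k, Φ k '' U k

/-- `w_i = Γ(z_i)` for `i ∈ S` and `w_i = z_i` for the other `i`. -/
noncomputable def mixed {n : ℕ} (S : Finset (Fin n)) (z : Fin n → ℂ) : Fin n → ℂ :=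
  fun i => if i ∈ S then Complex.Gamma (z i) else z i

/-- The field generated over `F` by the numbers `z_i` and `Γ(z_i)`. -/
noncomputable def gammaField (F : Type) [Field F] [Algebra F ℂ] {n : ℕ} (z : Fin n → ℂ) :
    IntermediateField F ℂ :=
  IntermediateField.adjoin F (Set.range z ∪ Set.range fun i => Complex.Gamma (z i))

/-- Let `F` be a countable subfield of `ℂ` (for instance `ℚ` or its algebraic closure), `S` a set
of indices and `w_i = Γ(z_i)` for `i ∈ S`, `w_i = z_i` for the other `i`. Outside of a set which is
covered by countably many analytic images of open subsets of `ℂ ^ m`, all `z ∈ ℂ ^ n` such that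
`w` has transcendence degree at most `m + 1` over `F`, such that `z_i ∉ ℚ z_j + ℚ` for `i ≠ j` outside
of `S` and `z_i ≠ z_j` for `i ≠ j` in `S`, have the property that the transcendence degree of
`F(z_1, …, z_n, Γ(z_1), …, Γ(z_n))` is at least the number of the `i` with transcendental `w_i`
plus `m + 1`. -/
theorem result (F : Type) [Field F] [Algebra F ℂ] [Countable F] (n m : ℕ) (S : Finset (Fin n)) :
    Thin m {z : Fin n → ℂ |
      Algebra.trdeg F (IntermediateField.adjoin F (Set.range (mixed S z))) ≤
        ((m + 1 : ℕ) : Cardinal) ∧
      (∀ i j, i ≠ j → i ∉ S → j ∉ S → ∀ p q : ℚ, z i ≠ p * z j + q) ∧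
      (∀ i j, i ≠ j → i ∈ S → j ∈ S → z i ≠ z j) ∧
      Algebra.trdeg F (gammaField F z) <
        ((Nat.card {i // ¬ IsAlgebraic F (mixed S z i)} + (m + 1) : ℕ) : Cardinal)} :=
  Pool.Agent.H489.GI.G.main_num F n m S

end Pool.Agent.Results.MP_26ad15_nt.GammaAndItsInverse
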