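import Pool.Agent.H489.GI.Pts

/-!
# The Schanuel type conjecture for the Gamma function if of every pair `z_i`, `Γ(z_i)` one number is algebraic

If one of the two numbers `z_i`, `Γ(z_i)` is algebraic for every `i ≤ n`, the conjecture says that the `n` other
numbers are algebraically independent. Let `S` be the set of the `i` for which `Γ(z_i)` is algebraic. For `S = ∅`
these are the values of `Γ` at algebraic numbers; for `S = {1, …, n}` they are the values of the (infinitely many) branches of the
inverse function of `Γ` at algebraic numbers, for example the solutions `z_1, …, z_n` of `Γ(z) = 2`. We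
prove the conjecture in bounded degree and height for almost all such tuples on every variety.

Let `U` be a nonempty connected open set of `ℂ^d`, `d ≥ 1`, and let `z_1, …, z_n` be analytic functions on `U`
the values of which are not poles of `Γ`, such that `Γ(z_i)` is an algebraic function for `i ∈ S` (so that `z_i` is a branch of
the inverse function of `Γ` at an algebraic function) and `z_i` is an algebraic function for `i ∉ S`. As every
variety is locally finite over an affine space, these are the branches over an arbitrary variety.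
We suppose that no `z_i` is constant, that `z_i` is not in `ℚ z_j + ℚ` for `i ≠ j` outside of `S` and that `z_i ≠ z_j` for `i ≠ j`
in `S`. If the functions are algebraic over `ℚ(x)` and `x` is an algebraic point of `U` then the conjecture says that the numbers

  `z_i(x)`, `i ∈ S`, and `Γ(z_i(x))`, `i ∉ S`,

are algebraically independent. We prove that for all points `x` with coordinates of height at most `T` in a number
field of degree at most `ω T`, outside of a sparse set, these numbers satisfy no polynomial relation of degree at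
most `ω T` and height at most `T ^ ω T`, not even with coefficients which are combinations of arbitrary fixed complex
numbers `ξ_i`. Here `ω T → ∞`.

The second part treats points which are not algebraic: let `h` be an analytic map from a connected open set `D` of `ℂ^d`
to `U`, the image of which has inner points. One can choose `n` of the `n + d` functions `z_i(h(x))` (`i ∈ S`),
`Γ(z_i(h(x)))` (`i ∉ S`), `h_k(x)` such that the same is true for the chosen numbers, for almost all algebraic points `x ∈ D`.

The case `S = ∅` is the result `EveryVariety` of the library, whose counting theorem is used here; the new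
part is the theorem `Pool.Agent.H489.GI.G.mixG` on the algebraic independence of the branches of the inverse function
of `Γ` at algebraic functions, together with the values of `Γ` at algebraic functions.
-/

set_option autoImplicit false

open Filter NumberField

namespace Pool.Agent.Results.MP_26ad15_nt.InverseAtAlgebraicPoints

/-- quotients of two integers of `K`, all conjugates of which are at most `T` -/
def HeightLe (K : Type) [Field K] [NumberField K] (T : ℝ) (x : K) : Prop :=
  ∃ a b : 𝓞 K, b ≠ 0 ∧ house (a : K) ≤ T ∧ house (b : K) ≤ T ∧ x = a / b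

/-- `E` is covered by at most `m` hypersurfaces of degree at most `D` -/
def CoveredBy {X : Type} (D m : ℕ) (E : Set (X → ℂ)) : Prop :=
  ∃ Φ : Finset (MvPolynomial X ℂ), Φ.card ≤ m ∧ (∀ P ∈ Φ, P ≠ 0 ∧ P.totalDegree ≤ D) ∧
    ∀ x ∈ E, ∃ P ∈ Φ, MvPolynomial.eval x P = 0

/-- the points of norm at most `k` at distance at least `1 / k` from the complement of `U` -/
def Inner {X : Type} [Fintype X] (U : Set (X → ℂ)) (k : ℕ) : Set (X → ℂ) :=
  {z | ‖z‖ ≤ k ∧ Metric.ball z (k : ℝ)⁻¹ ⊆ U}

/-- the partial degrees of `P` are at most `k`, and its coefficients are `∑ ξ i * c i`, `i < k`, where the `c i` are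
integers of `K`, all conjugates of which are at most `T ^ k` -/
def Small {σ : Type} (K : Type) [Field K] [NumberField K] (io : K →+* ℂ) (k : ℕ) (ξ : Fin k → ℂ) (T : ℝ)
    (P : MvPolynomial σ ℂ) : Prop :=
  (∀ y, P.degreeOf y ≤ k) ∧ ∀ m, ∃ c : Fin k → 𝓞 K, (∀ i (φ : K →+* ℂ), ‖φ (c i : K)‖ ≤ T ^ (k : ℝ)) ∧
    P.coeff m = ∑ i, ξ i * io (c i : K)

/-- The exceptional points `x` over `K`: they are of height at most `T`, in the compact set `Inner U k`, and some nonzero
small polynomial vanishes at the numbers `v s x`. -/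
def Exceptional {d : ℕ} {V : Type} (U : Set (Fin d → ℂ)) (v : V → (Fin d → ℂ) → ℂ)
    (K : Type) [Field K] [NumberField K] (io : K →+* ℂ) (k : ℕ) (ξ : Fin k → ℂ) (T : ℝ) : Set (Fin d → K) :=
  {x | (∀ i, HeightLe K T (x i)) ∧ (fun i => io (x i)) ∈ Inner U k ∧
    ∃ P : MvPolynomial V ℂ, Small K io k ξ T P ∧ MvPolynomial.eval (fun s => v s fun i => io (x i)) P = 0 ∧ P ≠ 0}

/-- In bounded degree and height the numbers `v s x` are algebraically independent at almost all algebraic points `x` of `U`:
there is `ω → ∞` such that for all large `T`, all number fields `K` of degree at most `ω T`, embedded in `ℂ`, and all complex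
numbers `ξ i`, `i < ω T`, the set of the exceptional points lies on at most `T ^ (1 / ω T)` hypersurfaces of degree at most
`T ^ (1 / ω T)`, and has at most `T ^ (1 / ω T) * N ^ (d - 1)` elements, where `N` is the number of the elements of `K` of height
at most `T`. At all other points `x` of height at most `T` over `K` (in `Inner U (ω T)`) the numbers `v s x` satisfy no
nonzero polynomial relation of partial degrees at most `ω T` with coefficients `∑ ξ i * c i`, `c i` integers of `K` of size at
most `T ^ ω T`. -/
def IndependentAlmostAlways {d : ℕ} {V : Type} (U : Set (Fin d → ℂ)) (v : V → (Fin d → ℂ) → ℂ) : Prop :=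
  ∃ (ω : ℝ → ℕ) (T₀ : ℝ), Tendsto ω atTop atTop ∧ Monotone ω ∧ ∀ T, T₀ ≤ T → 0 < ω T ∧
    ∀ (K : Type) [Field K] [NumberField K], Module.finrank ℚ K ≤ ω T → ∀ (io : K →+* ℂ) (ξ : Fin (ω T) → ℂ),
      CoveredBy ⌊T ^ ((ω T : ℝ)⁻¹)⌋₊ ⌊T ^ ((ω T : ℝ)⁻¹)⌋₊
        ((fun z i => io (z i)) '' Exceptional U v K io (ω T) ξ T) ∧
      (Exceptional U v K io (ω T) ξ T).Finite ∧
      ((Exceptional U v K io (ω T) ξ T).ncard : ℝ) ≤
        T ^ ((ω T : ℝ)⁻¹) * ({x : K | HeightLe K T x}.ncard : ℝ) ^ (d - 1)

/-- the number which is algebraic: `Γ(z_i)` for `i ∈ S` and `z_i` for the other `i` -/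
noncomputable def algebraicOne {n : ℕ} (S : Finset (Fin n)) (z : Fin n → ℂ) : Fin n → ℂ :=
  fun i => if i ∈ S then Complex.Gamma (z i) else z i

/-- the other number: `z_i` for `i ∈ S` and `Γ(z_i)` for the other `i` -/
noncomputable def otherOne {n : ℕ} (S : Finset (Fin n)) (z : Fin n → ℂ) : Fin n → ℂ :=
  fun i => if i ∈ S then z i else Complex.Gamma (z i)

theorem conclude {d : ℕ} {V : Type} [Fintype V] [DecidableEq V] (hd : 1 ≤ d) {U : Set (Fin d → ℂ)}
    (hU : IsPreconnected U) (hUo : IsOpen U) (hne : U.Nonempty) {v : V → (Fin d → ℂ) → ℂ}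
    (hv : ∀ s, AnalyticOnNhd ℂ (v s) U)
    (hi : ∀ p : MvPolynomial V (MvPolynomial (Fin d) ℂ),
      (∀ x ∈ U, Pool.Agent.Y890.MV.evM v x p = 0) → p = 0) :
    IndependentAlmostAlways U v := by
  have : Nonempty (Fin d) := ⟨⟨0, hd⟩⟩
  obtain ⟨ω, T₀, h1, h2, h3⟩ := Pool.Agent.V11273.PV.main_indep1 hU hUo hne hv hi
  refine ⟨ω, T₀, h1, h2, fun T hT => ⟨(h3 T hT).1, fun K _ _ hK io ξ => ?_⟩⟩
  have h4 := (h3 T hT).2 K hK io ξ
  rw [Fintype.card_fin] at h4
  exact h4

/-- Let `z_1, …, z_n` be analytic functions on a nonempty connected open set `U` of `ℂ^d`, `d ≥ 1`, which do not take the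
values `0, -1, -2, …`, and let `S` be a set of indices such that `Γ(z_i)` is an algebraic function for `i ∈ S` and `z_i`
is an algebraic function for `i ∉ S`. Suppose that no `z_i` is constant, `z_i ∉ ℚ z_j + ℚ` for `i ≠ j`
outside of `S`, and `z_i ≠ z_j` for `i ≠ j` in `S`. In bounded degree and height the `n` numbers `z_i(x)`, `i ∈ S`,
`Γ(z_i(x))`, `i ∉ S`, are algebraically independent at almost all algebraic points `x` of `U`, and for every analytic map `h`
from a nonempty connected open set `D` of `ℂ^d` to `U`, the image of which has inner points, one can choose `n` of the `n + d`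
functions `z_i(h(x))`, `i ∈ S`, `Γ(z_i(h(x)))`, `i ∉ S`, `h_k(x)` such that the same holds for the chosen numbers at
almost all algebraic points `x` of `D`. -/
theorem result {d n : ℕ} (hd : 1 ≤ d) (U : Set (Fin d → ℂ)) (hUo : IsOpen U) (hU : IsPreconnected U) (hne : U.Nonempty)
    (z : Fin n → (Fin d → ℂ) → ℂ) (S : Finset (Fin n)) (hz : ∀ i, AnalyticOnNhd ℂ (z i) U)
    (hpole : ∀ i, ∀ x ∈ U, ∀ m : ℕ, z i x ≠ -m)
    (halg : ∀ i, ∃ Q : Polynomial (MvPolynomial (Fin d) ℂ), Q ≠ 0 ∧
      ∀ x ∈ U, Q.eval₂ (MvPolynomial.eval x) (algebraicOne S (fun j => z j x) i) = 0)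
    (hnc : ∀ i, ∀ v : ℂ, ∃ x ∈ U, z i x ≠ v)
    (hH : ∀ i j, i ≠ j → i ∉ S → j ∉ S → ∀ a b : ℚ, ∃ x ∈ U, z i x ≠ a * z j x + b)
    (hD : ∀ i j, i ≠ j → i ∈ S → j ∈ S → ∃ x ∈ U, z i x ≠ z j x) :
    IndependentAlmostAlways U (fun i x => otherOne S (fun j => z j x) i) ∧
    ∀ (D : Set (Fin d → ℂ)), IsOpen D → IsPreconnected D → D.Nonempty → ∀ h : (Fin d → ℂ) → Fin d → ℂ,
      AnalyticOnNhd ℂ h D → Set.MapsTo h D U → (interior (h '' D)).Nonempty →
      ∃ A : Finset (Fin n ⊕ Fin d), A.card = n ∧
        IndependentAlmostAlways D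
          (fun (a : A) x => Sum.elim (otherOne S (fun j => z j (h x))) (h x) a.1) := by
  have hΓ : ∀ i, AnalyticOnNhd ℂ (fun x => otherOne S (fun j => z j x) i) U := by
    intro i
    by_cases hi : i ∈ S
    · simp only [otherOne, hi, if_true]
      exact hz i
    · simp only [otherOne, hi, if_false]
      exact Pool.Agent.V11273.PV.gamma_an (hz i) (hpole i)
  have hi := Pool.Agent.H489.GI.G.mixG hUo hU hne S hz hpole halg hnc hH hD
  refine ⟨conclude hd hU hUo hne hΓ hi, fun D hDo hDc hDn h hh hmap hint => ?_⟩
  obtain ⟨A, hA, hAi⟩ := Pool.Agent.V11273.PV.exists_pull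
    (f := fun i x => otherOne S (fun j => z j x) i) hU hΓ hi hDc hDo hDn hh hmap hint
  refine ⟨A, by rw [hA, Fintype.card_fin], conclude hd hDc hDo hDn (fun a => ?_) hAi⟩
  rcases a with ⟨i | k, ha⟩
  · exact fun x hx => (hΓ i (h x) (hmap hx)).comp (hh x hx)
  · intro x hx
    exact ((ContinuousLinearMap.proj (R := ℂ) (φ := fun _ : Fin d => ℂ) k).analyticAt (h x)).comp (hh x hx)

end Pool.Agent.Results.MP_26ad15_nt.InverseAtAlgebraicPoints
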